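import Pool.Agent.W_4481e3_q87.GoR
import Pool.Agent.W_4481e3_tab.T8

/-!
Tree s31o8, data 7.
-/

namespace Pool.Agent.W_4481e3_rt.s31o8

open Pool.Agent.W_4481e3_q25.EvR

theorem k141 : ckO Pool.Agent.W_4481e3_tab.T8.tab 1144800 2220640 16777216 4194304 5931008 8388608 6 3670016 524288 1572864 524288 512717187 527852935 949185 1845718 268412993 268439319 16777216 16777216 8472495 8472495 0x103000c03000c04000c204000c05029c04000c05029c21212 = true := by decide +kernel

theorem k143 : ckO Pool.Agent.W_4481e3_tab.T8.tab 1144800 2220640 16777216 4194304 5931008 8388608 1 3670016 524288 1572864 524288 513666372 524161499 1898370 1845718 268412993 268439319 16777216 16777216 8472495 8472495 0x103000c = true := by decide +kernel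

theorem k145 : ckO Pool.Agent.W_4481e3_tab.T8.tab 1144800 2220640 16777216 4194304 5931008 8388608 4 3670016 524288 1572864 524288 509869632 526007217 1898370 3691435 268412993 268439319 16777216 16777216 8472495 8472495 0x102000c02000c02000c03000c212 = true := by decide +kernel

theorem k150 : ckO Pool.Agent.W_4481e3_tab.T8.tab 1144800 2220640 16777216 4194304 5931008 8388608 5 3670016 524288 1572864 524288 515354132 515354132 7172260 7172260 268435456 268435456 16777216 16777216 8472495 8472495 0x102000c02000c02000c1202000c02000c03000c202000c03000c2121 = true := by decide +kernel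

theorem k153 : ckO Pool.Agent.W_4481e3_tab.T8.tab 1144800 2220640 16777216 4194304 5931008 8388608 5 3670016 524288 1572864 524288 522526392 493837352 14344520 14344520 268435456 268435456 16777216 16777216 8472495 8472495 0x100000c00000c01000c201029c1201000c01007c01003c121 = true := by decide +kernel

theorem k155 : ckO Pool.Agent.W_4481e3_tab.T8.tab 1144800 2220640 16777216 4194304 5931008 8388608 10 3670016 524288 1572864 524288 493837352 508181872 14344520 28689040 268435456 268435456 16777216 16777216 8472495 8472495 0x100000c00000c00000c00000c00000c02000c12100000c00000c200000c00000c202000c102000c02000c202000c02000c02000c2102000c04000c04000c212121212 = true := by decide +kernel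

end Pool.Agent.W_4481e3_rt.s31o8
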